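import Mathlib

namespace Pool.Agent.Results.MP_be8152_al.TooManyClasses

universe u

variable {k : Type u} [Field k] {V : Type u} [AddCommGroup V] [Module k V]

/-- A 4-algebra structure: a commutative bilinear product with `(x²)² = 0`. -/
def IsFourAlgebra (m : V →ₗ[k] V →ₗ[k] V) : Prop :=
  (∀ x y, m x y = m y x) ∧ ∀ x, m (m x x) (m x x) = 0

/-- Bernstein operators on `(V, m)`. -/
def IsBernsteinOp (m : V →ₗ[k] V →ₗ[k] V) (Ω : V →ₗ[k] V) : Prop :=
  Ω ∘ₗ Ω = Ω ∧ (∀ x, m (m x x) (Ω x) = 0) ∧ ∀ x, m (Ω x) (Ω x) + Ω (m x x) = m x x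

/-- The set `BO(V, m)`. -/
def BO (m : V →ₗ[k] V →ₗ[k] V) : Type u := {Ω : V →ₗ[k] V // IsBernsteinOp m Ω}

/-- The relation `Ω ≈ Ω'`. -/
def BRel (m : V →ₗ[k] V →ₗ[k] V) (Ω Ω' : BO m) : Prop :=
  ∃ (f : V ≃ₗ[k] V) (v₀ : V), (∀ x y, f (m x y) = m (f x) (f y)) ∧
    (∀ x, Ω'.1 x = f (Ω.1 (f.symm x)) - (2 : k) • m x v₀) ∧ Ω'.1 v₀ = v₀ - m v₀ v₀

/-- The product on `k⁴` with `e₀ e₁ = e₁ e₀ = e₃` and all other basis products zero. -/
def mu (k : Type u) [Field k] : (Fin 4 → k) →ₗ[k] (Fin 4 → k) →ₗ[k] (Fin 4 → k) :=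
  LinearMap.mk₂ k (fun x y => ![0, 0, 0, x 0 * y 1 + x 1 * y 0])
    (by intro a b c; ext i; fin_cases i <;> simp; ring)
    (by intro a b c; ext i; fin_cases i <;> simp; ring)
    (by intro a b c; ext i; fin_cases i <;> simp; ring)
    (by intro a b c; ext i; fin_cases i <;> simp; ring)

theorem mu_apply (x y : Fin 4 → k) : mu k x y = ![0, 0, 0, x 0 * y 1 + x 1 * y 0] := rfl

/-- Diagonal operator. -/
def dg (d : Fin 4 → k) : (Fin 4 → k) →ₗ[k] (Fin 4 → k) where
  toFun x := fun i => d i * x i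
  map_add' x y := by ext i; simp [mul_add]
  map_smul' c x := by ext i; simp; ring

theorem dg_apply (d x : Fin 4 → k) (i : Fin 4) : dg d x i = d i * x i := rfl

def dd (k : Type u) [Field k] : Fin 6 → Fin 4 → k :=
  ![![0, 0, 0, 1], ![0, 0, 1, 1], ![1, 0, 0, 1], ![1, 0, 1, 1], ![1, 1, 1, 0], ![1, 1, 0, 0]]

theorem dd_bo (j : Fin 6) : IsBernsteinOp (mu k) (dg (dd k j)) := by
  refine ⟨?_, ?_, ?_⟩
  · apply LinearMap.ext; intro x; ext i
    fin_cases j <;> fin_cases i <;> simp [dg_apply, dd]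
  · intro x; ext i
    fin_cases i <;> simp [mu_apply]
  · intro x; ext i
    fin_cases j <;> fin_cases i <;> simp [mu_apply, dg_apply, dd]

def P1 (Ω : BO (mu k)) : Prop := ∀ x y, Ω.1 (mu k x y) = mu k x y
def P2 (Ω : BO (mu k)) : Prop := ∀ x y, mu k (Ω.1 x) y = 0
def P3 (Ω : BO (mu k)) : Prop := ∀ x, (∀ y, mu k x y = 0) → Ω.1 x - x ∈ Set.range (fun p : (Fin 4 → k) × (Fin 4 → k) => mu k p.1 p.2)

theorem mm (x y z : Fin 4 → k) : mu k (mu k x y) z = 0 := by
  ext i; fin_cases i <;> simp [mu_apply]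

theorem inv1 (Ω Ω' : BO (mu k)) (h : BRel (mu k) Ω Ω') : P1 Ω ↔ P1 Ω' := by
  obtain ⟨f, v, hf, h1, -⟩ := h
  have hs : ∀ x y, f.symm (mu k x y) = mu k (f.symm x) (f.symm y) := by
    intro x y; apply f.injective; simp [hf]
  constructor
  · intro h x y
    rw [h1, mm, hs, h, hf]; simp
  · intro h x y
    have := h (f x) (f y)
    rw [h1, mm, ← hf] at this
    simpa using this

theorem inv2 (Ω Ω' : BO (mu k)) (h : BRel (mu k) Ω Ω') : P2 Ω ↔ P2 Ω' := by
  obtain ⟨f, v, hf, h1, -⟩ := h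
  constructor
  · intro h x y
    have := congrArg f (h (f.symm x) (f.symm y))
    rw [hf] at this
    rw [h1, map_sub, map_smul, LinearMap.sub_apply, LinearMap.smul_apply, mm]
    simpa using this
  · intro h x y
    have := h (f x) (f y)
    rw [h1, map_sub, map_smul, LinearMap.sub_apply, LinearMap.smul_apply, mm] at this
    apply f.injective
    rw [hf]
    simpa using this

theorem inv3 (Ω Ω' : BO (mu k)) (h : BRel (mu k) Ω Ω') : P3 Ω ↔ P3 Ω' := by
  obtain ⟨f, v, hf, h1, -⟩ := h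
  have hs : ∀ x y, f.symm (mu k x y) = mu k (f.symm x) (f.symm y) := by
    intro x y; apply f.injective; simp [hf]
  constructor
  · intro h x hx
    obtain ⟨⟨a, b⟩, hab⟩ := h (f.symm x) (by
      intro y
      have := congrArg f.symm (hx (f y))
      rw [hs] at this
      simpa using this)
    refine ⟨(f a, f b), ?_⟩
    simp only at hab ⊢
    rw [← hf, hab, h1, hx]; simp
  · intro h x hx
    have hx' : ∀ y, mu k (f x) y = 0 := by
      intro y
      have := congrArg f (hx (f.symm y))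
      rw [hf] at this
      simpa using this
    obtain ⟨⟨a, b⟩, hab⟩ := h (f x) hx'
    refine ⟨(f.symm a, f.symm b), ?_⟩
    simp only at hab ⊢
    rw [← hs, hab, h1, hx']; simp

theorem p1 (j : Fin 6) : P1 (k := k) ⟨_, dd_bo j⟩ ↔ dd k j 3 = 1 := by
  constructor
  · intro h
    have := congrFun (h ![1, 0, 0, 0] ![0, 1, 0, 0]) 3
    simpa [mu_apply, dg_apply] using this
  · intro h x y; ext i
    fin_cases i <;> simp [mu_apply, dg_apply, h]

theorem p2 (j : Fin 6) : P2 (k := k) ⟨_, dd_bo j⟩ ↔ dd k j 0 = 0 := by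
  constructor
  · intro h
    have := congrFun (h ![1, 0, 0, 0] ![0, 1, 0, 0]) 3
    simpa [mu_apply, dg_apply] using this
  · intro h x y; ext i
    fin_cases j <;> fin_cases i <;> simp_all [mu_apply, dg_apply, dd]

theorem p3 (j : Fin 6) : P3 (k := k) ⟨_, dd_bo j⟩ ↔ dd k j 2 = 1 := by
  constructor
  · intro h
    obtain ⟨⟨a, b⟩, hab⟩ := h ![0, 0, 1, 0] (by intro y; ext i; fin_cases i <;> simp [mu_apply])
    have := congrFun hab 2
    simp [mu_apply, dg_apply] at this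
    linear_combination -this
  · intro h x hx
    have h0 : x 0 = 0 := by simpa [mu_apply] using congrFun (hx ![0, 1, 0, 0]) 3
    have h1 : x 1 = 0 := by simpa [mu_apply] using congrFun (hx ![1, 0, 0, 0]) 3
    refine ⟨(![1, 0, 0, 0], ![0, dd k j 3 * x 3 - x 3, 0, 0]), ?_⟩
    ext i
    fin_cases i <;> simp [mu_apply, dg_apply, h0, h1, h]

theorem result (k : Type u) [Field k] :
    ∃ (n : ℕ) (m : (Fin n → k) →ₗ[k] (Fin n → k) →ₗ[k] (Fin n → k)), 1 ≤ n ∧ IsFourAlgebra m ∧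
      ((n + 1 : ℕ) : ℕ∞) < ENat.card (Quot (BRel m)) := by
  refine ⟨4, mu k, by norm_num, ⟨?_, fun x => mm _ _ _⟩, ?_⟩
  · intro x y; ext i; fin_cases i <;> simp [mu_apply]; ring
  let F : Quot (BRel (mu k)) → Prop × Prop × Prop :=
    Quot.lift (fun Ω => (P1 Ω, P2 Ω, P3 Ω)) (by
      intro a b h
      rw [propext (inv1 a b h), propext (inv2 a b h), propext (inv3 a b h)])
  let g : Fin 6 → Quot (BRel (mu k)) := fun j => Quot.mk _ ⟨_, dd_bo j⟩
  have hg : Function.Injective g := by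
    intro i j hij
    have := congrArg F hij
    simp only [F, g, Prod.mk.injEq, p1, p2, p3] at this
    revert this
    fin_cases i <;> fin_cases j <;> simp [dd]
  have h6 : ENat.card (Fin 6) ≤ ENat.card (Quot (BRel (mu k))) :=
    ENat.card_le_card_of_injective hg
  refine lt_of_lt_of_le ?_ h6
  simp
  norm_num

end Pool.Agent.Results.MP_be8152_al.TooManyClasses
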